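import Pool.Agent.Q193.LT.Sums
import Pool.Agent.Q193.LT.Crit

/-!
# Bounded index in the Mumford-Tate group and trilinear forms with a block of four variables

Let `k` be a field finitely generated over `ℚ`, with an embedding in `ℂ`. Let `M` be the category of
motives over `k` in the sense of André, a semisimple abelian category with Tate twists `N ↦ N(a)`, and let
`w₀ : M ⥤ M` be the functor `N ↦ Gr^W_0 N`, the direct factor of weight zero. For a separated scheme `X` of
finite type over `k` let `D.H i X` be the object of `M` given by the graded object of the weight filtration
of the cohomology with compact supports `H^i_c(X)`; for smooth projective `X` it is the motive `h^i(X)`.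

For a motive `N` of weight zero let `Λ` be a lattice in the Betti realization such that `Λ ⊗ ℤ_ℓ` is stable
under the Galois group for all primes `ℓ`, let `G` be the Zariski closure of the Mumford-Tate group in
`GL(Λ)`, and let `bd N` be the statement that there is a constant `C` such that for every prime `ℓ` the
image of `Γ_{k^conn}` in `GL(Λ ⊗ ℤ_ℓ)` is a subgroup of `G(ℤ_ℓ)` of index at most `C`. Two lattices are
equal at almost all primes, and at the other primes only the finiteness of the index matters; so `bd N` does
not depend on the lattice. If `N` is a direct factor of `N'` and `G → G'` are the groups of `N'` and `N`,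
then the index of the image of `G(ℤ_ℓ)` in `G'(ℤ_ℓ)` is bounded, for almost all `ℓ` by Lang's theorem (the
kernel has a bounded number of components), and for the other `ℓ` as the image is open; so `bd` is
inherited by direct factors (hypothesis `inherit`). Question Q1 for `X` is `bd (h^2(X)(1))`.

For a smooth projective surface `Y` the weight zero parts of the motives `h^i(Y)(a)` are `h^0(Y)`,
`h^2(Y)(1)` and `h^4(Y)(2)`; the first and the last are Artin motives, on which `Γ_{k^conn}` acts
trivially. If `Y_1, …, Y_r` are smooth projective and geometrically integral of dimension at most two (over
a finite extension of `k`, components of the given ones), `⨁ h^2(Y_j)(1)` is a direct factor of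
`h^2(Y_1 × ⋯ × Y_r)(1)`; and for every smooth projective geometrically integral `X` the motive `h^2(X)(1)`
is a direct factor of `h^2(S)(1)` for a surface `S` (Lefschetz). Finite extensions of `k` change the
indices by bounded factors. So question Q1 (the statement `second x` for all pairs `x` of a finite
extension of `k` and a variety `X` over it) is equivalent to `bd` for all finite direct sums of weight zero
parts of Tate twists of motives of smooth projective schemes of dimension at most two over `k`, that is to
`SumsHave D (OfProj D 2) (fun N => bd (w₀.obj N))` (hypothesis `lefschetz`). For curves the weight zero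
parts are Artin motives, and all the groups are trivial (the premise of the last clause).

**Theorem.** (1) Question Q1 for all `X` over all finite extensions of `k` has a positive answer if and only
if the images of the Galois groups have bounded index, as above, for all finite direct sums of weight zero
parts of Tate twists of the motives `Gr^W H^i_c(T = 1)` of the smooth affine cubic hypersurfaces
`T(x, y, z) = 1` of the trilinear forms `T` over `k` such that one of the three blocks of variables has at
most four variables (the other two blocks are arbitrary), and of the motives of the point.

(2) For all `n`, they have bounded index for all finite direct sums of weight zero parts of Tate twists of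
motives `h^i(Y)` of smooth projective schemes `Y` of dimension at most `n` over `k` if and only if this is
true for the sums as in (1) for the `T` with a block of at most `n + 2` variables.

(3) Unconditionally, it is true for the sums as in (1) for the `T` with a block of at most three variables.
-/

set_option autoImplicit false

open CategoryTheory CategoryTheory.Limits AlgebraicGeometry Pool.Agent.Y116.UV Pool.Agent.Z125.UN
  Pool.Agent.Q193.LT

universe v u

namespace Pool.Agent.Results.MP_2b5912_ag.BoundedIndex

/-- **The integral Mumford-Tate conjecture for `H^2` and cubic hypersurfaces.** See the explanations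
above. -/
theorem result {k : Type} [Field k] [CharZero k] (_hk : (⊤ : Subfield k).FG) {M : Type u}
    [Category.{v} M] [Abelian M] {D : CompactData k M} (h : IsMotives D) {w₀ : M ⥤ M}
    {bd : M → Prop}
    (inherit : ∀ {N N' : M} (i : N ⟶ N') (r : N' ⟶ N), i ≫ r = 𝟙 N → bd N' → bd N)
    {V : Type 1} {second : V → Prop}
    (lefschetz : (∀ x, second x) ↔ SumsHave D (OfProj D 2) fun N => bd (w₀.obj N)) :
    ((∀ x, second x) ↔ SumsHave D (OfForms D 4) fun N => bd (w₀.obj N)) ∧
    (∀ n : ℕ, SumsHave D (OfProj D n) (fun N => bd (w₀.obj N)) ↔
      SumsHave D (OfForms D (n + 2)) fun N => bd (w₀.obj N)) ∧
    ((SumsHave D (OfProj D 1) fun N => bd (w₀.obj N)) →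
      SumsHave D (OfForms D 3) fun N => bd (w₀.obj N)) := by
  have h1 : ∀ n : ℕ, SumsHave D (OfProj D n) (fun N => bd (w₀.obj N)) ↔
      SumsHave D (OfForms D (n + 2)) fun N => bd (w₀.obj N) := fun n =>
    sums_dim_iff h.compact h.generated h.semisimple (fun i r hir hN =>
      inherit (w₀.map i) (w₀.map r) (by rw [← w₀.map_comp, hir, w₀.map_id]) hN) n
  exact ⟨lefschetz.trans (h1 2), h1, (h1 1).mp⟩

end Pool.Agent.Results.MP_2b5912_ag.BoundedIndex
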