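import Mathlib
import Pool.Agent.Q63.SP.Motive
import Pool.Agent.Q63.KU.Dec

/-!
# The integral Mumford-Tate conjecture for products of abelian coverings of the plane

Let `X = X_1 × ⋯ × X_t` over a finitely generated field of characteristic zero, where each `X_j → P^2` is, over the
algebraic closure, a smooth abelian covering of the plane, branched over smooth curves with normal crossings, and

* the branch curves are lines, and every character `a` of the covering group is ramified over at most four of them, or
  has order `3`, `4` or `6` and is ramified over at most five, or has order `2` and is ramified over at most six; or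
* all characters have order two and are ramified over curves of a total degree at most six.

Examples are the smooth complete intersections of two diagonal hypersurfaces of degree three, four or six in `P^4`
and of four diagonal quadrics in `P^6`, and the coverings of the plane with the group `(ℤ/2)^2` branched over three cubics.
Then the integral Mumford-Tate conjecture is true for `H^2(X)`: the index of the image of Galois in `G(ℤ_ℓ)` is bounded.

1. Five lines in general position are tangent to a conic, so the cyclic covering of the plane with the exponents `a`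
is dominated by the square of a curve (`IsCurvePower`; this is proved in Lean). For the orders `3`, `4` and `6`
the transcendental part of its second cohomology is contained in the second tensor powers of `H^1` of abelian varieties of
dimension three. The coverings over four lines in general position are dominated by Fermat surfaces, and the double
planes with a branch curve of degree six are K3 surfaces.

2. The Mumford-Tate conjecture is known for these and for their products (Moonen-Zarhin, André, Commelin), and it
implies the integral conjecture for motives which are given by Shimura varieties of abelian type (Cadoret-Moonen).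

3. `H^2(X)` is the direct sum of the `H^2(X_j)`, and `H^2(X_j)` is the sum of the invariants of the kernels `N_a` of the
characters `a`, which are the second cohomology of the cyclic coverings `X_j / N_a` (up to algebraic classes). So an
automorphism of `H^2(X)` is determined by its restrictions to these subspaces.
-/

set_option autoImplicit false

namespace Pool.Agent.Results.MP_2b5912_ag.ProductsOfPlaneCoverings

open Multiplicative Pool.Agent.Q63.KU Pool.Agent.Q63.KI Pool.Agent.Q63.SP
open scoped Pointwise

/-- A smooth abelian covering of the projective plane over `ℂ`, branched over smooth curves with normal crossings, with a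
group which is a quotient of `(ℤ/m)^num`, where the `i`-th generator goes to the canonical generator of the inertia group
of the `i`-th curve. -/
structure PlaneCovering (m : ℕ) where
  /-- the number of the branch curves -/
  num : ℕ
  /-- their degrees -/
  deg : Fin num → ℕ
  /-- linear forms: the equations of the branch curves of degree one -/
  form : Fin num → Fin 3 → ℂ
  /-- the characters of the covering group, as a subgroup of `(ℤ/m)^num` -/
  chars : AddSubgroup (Fin num → ZMod m)

variable {m : ℕ}

/-- The degree of the curve over which the character `a` is ramified. -/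
def degree (X : PlaneCovering m) (a : Fin X.num → ZMod m) : ℕ :=
  ∑ i ∈ Finset.univ.filter (fun i => a i ≠ 0), X.deg i

/-- The coverings of the theorem. -/
def Admissible (X : PlaneCovering m) : Prop :=
  ((∀ i, X.deg i = 1) ∧ GenPos X.form ∧ 5 ≤ X.num ∧ ∀ a ∈ X.chars, lines a ≤ 4 ∨
    (lines a ≤ 5 ∧ (3 • a = 0 ∨ 4 • a = 0 ∨ 6 • a = 0)) ∨ (lines a ≤ 6 ∧ 2 • a = 0)) ∨
  ∀ a ∈ X.chars, degree X a ≤ 6 ∧ 2 • a = 0

/-- The characters `a` for which the Mumford-Tate conjecture for the cyclic covering `X / N_a` is known: it is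
dominated by a Fermat surface, or it is dominated by the square of a curve (`IsCurvePower`), where only
abelian varieties of dimension at most three matter, or it is a rational surface or a K3 surface. -/
def Known (X : PlaneCovering m) (a : Fin X.num → ZMod m) : Prop :=
  ((∀ i, X.deg i = 1) ∧ lines a ≤ 4) ∨
  (IsCurvePower m X.form (fun i => (a i).val) ∧ (∀ i, X.deg i = 1) ∧ lines a ≤ 5 ∧
    (3 • a = 0 ∨ 4 • a = 0 ∨ 6 • a = 0)) ∨
  (degree X a ≤ 6 ∧ 2 • a = 0)

/-- The linear automorphisms of the direct sum of the spaces `V j`. -/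
abbrev Aut (F : Type) [Field F] {t : ℕ} (V : Fin t → Type) [∀ j, AddCommGroup (V j)] [∀ j, Module F (V j)] : Type :=
  (∀ j, V j) ≃ₗ[F] (∀ j, V j)

/-- The actions of the group `(ℤ/m)^num` on the space `V`. -/
abbrev Action (X : PlaneCovering m) (F V : Type) [Field F] [AddCommGroup V] [Module F V] : Type :=
  Representation F (Multiplicative (Fin X.num → ZMod m)) V

/-- `u` is invariant under the kernel `N_a` of the character `a`. -/
def FixedByKernel {X : PlaneCovering m} {F V : Type} [Field F] [AddCommGroup V] [Module F V]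
    (ρ : Action X F V) (a : Fin X.num → ZMod m) (u : V) : Prop :=
  ∀ h : Fin X.num → ZMod m, ∑ i, a i * h i = 0 → ρ (ofAdd h) u = u

/-- Only the characters of the covering occur in `V`. -/
def OnlyCharacters {X : PlaneCovering m} [NeZero m] {F V : Type} [Field F] [AddCommGroup V] [Module F V]
    (ψ : AddChar (ZMod m) F) (ρ : Action X F V) : Prop :=
  ∀ a : Fin X.num → ZMod m, a ∉ X.chars → ∀ u : V,
    (∀ h : Fin X.num → ZMod m, ρ (ofAdd h) u = ψ (∑ i, a i * h i) • u) → u = 0

/-- Two automorphisms of `H^2(X_1 × ⋯ × X_t) = ⊕ V j`, `V j = H^2(X_j)`, agree on the invariants of the kernels of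
all characters `a` which are `Known`. -/
def Agree {t : ℕ} {X : Fin t → PlaneCovering m} {F : Type} [Field F] {V : Fin t → Type}
    [∀ j, AddCommGroup (V j)] [∀ j, Module F (V j)] (ρ : ∀ j, Action (X j) F (V j)) (g g' : Aut F V) : Prop :=
  ∀ j, ∀ a ∈ (X j).chars, Known (X j) a → ∀ u : V j, FixedByKernel (ρ j) a u →
    g (Pi.single j u) = g' (Pi.single j u)

/-- For an equivalence relation `R` (here: equality of the restrictions to certain subspaces) the classes of the elements
of `Γ` are classes of elements of `G`, and they are a subgroup of index at most `C` in the group of these. -/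
def BoundedOn {A : Type} [Group A] (R : A → A → Prop) (G Γ : Subgroup A) (C : ℕ) : Prop :=
  (∀ g ∈ Γ, ∃ g' ∈ G, R g g') ∧ ∃ S : Finset A, S.card ≤ C ∧ (∀ s ∈ S, s ∈ G) ∧
    ∀ g ∈ G, ∃ s ∈ S, ∃ g' ∈ Γ, R g (s * g')

/-- `X` is the product of the coverings `X j` of the plane, over a finitely generated field of characteristic zero. For a
prime `ℓ` let `F ℓ` be the algebraic closure of `ℚ_ℓ`, `V ℓ j = H^2(X_j, F(1))`, with the action `ρ ℓ j` of
the group `(ℤ/m)^num` on `X_j`, so that `H^2(X, F(1)) = ⊕ V ℓ j` (the surfaces `X_j` have no odd cohomology); `G ℓ` is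
the group `G(ℤ_ℓ)`, where `G` is the closure of the Mumford-Tate group of `H^2(X, ℚ(1))` in the automorphisms of the
integral cohomology, and `Γ ℓ` is the image of the Galois group. -/
structure SecondCohomology {t : ℕ} {X : Fin t → PlaneCovering m} [NeZero m] {F : ℕ → Type}
    [∀ ℓ, Field (F ℓ)] (ψ : ∀ ℓ, AddChar (ZMod m) (F ℓ)) {V : ℕ → Fin t → Type}
    [∀ ℓ j, AddCommGroup (V ℓ j)] [∀ ℓ j, Module (F ℓ) (V ℓ j)]
    (ρ : ∀ ℓ j, Action (X j) (F ℓ) (V ℓ j)) (G Γ : ∀ ℓ, Subgroup (Aut (F ℓ) (V ℓ))) : Prop where
  /-- only the characters of the covering occur -/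
  characters : ∀ ℓ j, OnlyCharacters (ψ ℓ) (ρ ℓ j)
  /-- The integral Mumford-Tate conjecture for the product of the surfaces `X_j / N_a`, `a` `Known`: the restrictions of the
  elements of `Γ ℓ` to the invariants of the `N_a` are restrictions of elements of `G ℓ`, and they are a
  subgroup of a bounded index in the group of the restrictions of the elements of `G ℓ`. -/
  known : ∃ C : ℕ, ∀ ℓ : ℕ, ℓ.Prime → BoundedOn (Agree (ρ ℓ)) (G ℓ) (Γ ℓ) C

lemma known_of_admissible [NeZero m] {X : PlaneCovering m} (hX : Admissible X) {a : Fin X.num → ZMod m}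
    (ha : a ∈ X.chars) : Known X a := by
  rcases hX with ⟨hd, hv, hs, h⟩ | h
  · rcases h a ha with h4 | ⟨h5, h346⟩ | ⟨h6, h2⟩
    · exact Or.inl ⟨hd, h4⟩
    · refine Or.inr (Or.inl ⟨?_, hd, h5, h346⟩)
      have hm : 0 < m := Nat.pos_of_ne_zero (NeZero.ne m)
      refine curvePower_of_osculating (by norm_num) hm ?_
      have h1 : {i | (a i).val ≠ 0} =
          ((Finset.univ.filter fun i => a i ≠ 0 : Finset (Fin X.num)) : Set (Fin X.num)) := by
        ext i
        simp [ZMod.val_eq_zero]
      rw [h1]
      exact osculating_of_genPos hv hs h5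
    · refine Or.inr (Or.inr ⟨?_, h2⟩)
      unfold degree
      simp only [hd, Finset.sum_const, smul_eq_mul, mul_one]
      exact h6
  · exact Or.inr (Or.inr (h a ha))

lemma eq_of_agree {t : ℕ} [NeZero m] {X : Fin t → PlaneCovering m} (hX : ∀ j, Admissible (X j)) {F : Type}
    [Field F] [CharZero F] [IsAlgClosed F] {ψ : AddChar (ZMod m) F} (hψ : ψ.IsPrimitive) {V : Fin t → Type}
    [∀ j, AddCommGroup (V j)] [∀ j, Module F (V j)]
    {ρ : ∀ j, Action (X j) F (V j)} (hc : ∀ j, OnlyCharacters ψ (ρ j)) {g g' : Aut F V} (h : Agree ρ g g') :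
    g = g' := by
  classical
  have h1 : ∀ j (u : V j), g (Pi.single j u) = g' (Pi.single j u) := by
    intro j u
    let A : Submodule F (V j) := LinearMap.eqLocus
      ((g : (∀ j, V j) →ₗ[F] (∀ j, V j)) ∘ₗ LinearMap.single F V j)
      ((g' : (∀ j, V j) →ₗ[F] (∀ j, V j)) ∘ₗ LinearMap.single F V j)
    have h2 : u ∈ A := by
      rw [← sum_comp (ρ := ρ j) hψ u]
      refine A.sum_mem fun a _ => ?_
      by_cases ha : a ∈ (X j).chars
      · refine h j a ha (known_of_admissible (hX j) ha) _ fun h hh => ?_
        rw [act_comp, hh, AddChar.map_zero_eq_one, one_smul]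
      · rw [hc j a ha _ fun h => act_comp u a h]
        exact A.zero_mem
    exact h2
  ext v
  rw [show v = ∑ j, Pi.single j (v j) from (Finset.univ_sum_single v).symm, map_sum, map_sum,
    Finset.sum_congr rfl fun j _ => h1 j (v j)]

/-- **The integral Mumford-Tate conjecture for products of abelian coverings of the plane.** See the explanations
above. -/
theorem result (m t : ℕ) [NeZero m] (X : Fin t → PlaneCovering m) (hX : ∀ j, Admissible (X j)) {F : ℕ → Type}
    [∀ ℓ, Field (F ℓ)] [∀ ℓ, CharZero (F ℓ)] [∀ ℓ, IsAlgClosed (F ℓ)] (ψ : ∀ ℓ, AddChar (ZMod m) (F ℓ))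
    (hψ : ∀ ℓ, (ψ ℓ).IsPrimitive) {V : ℕ → Fin t → Type} [∀ ℓ j, AddCommGroup (V ℓ j)]
    [∀ ℓ j, Module (F ℓ) (V ℓ j)]
    (ρ : ∀ ℓ j, Action (X j) (F ℓ) (V ℓ j)) (G Γ : ∀ ℓ, Subgroup (Aut (F ℓ) (V ℓ)))
    (hD : SecondCohomology ψ ρ G Γ) :
    ∃ C : ℕ, ∀ ℓ : ℕ, ℓ.Prime →
      Γ ℓ ≤ G ℓ ∧ (Γ ℓ).relIndex (G ℓ) ≠ 0 ∧ (Γ ℓ).relIndex (G ℓ) ≤ C := by
  obtain ⟨C, hC⟩ := hD.known
  refine ⟨C, fun ℓ hℓ => ?_⟩
  obtain ⟨h1, S, hS, hSG, h2⟩ := hC ℓ hℓ
  have key : ∀ {g g' : Aut (F ℓ) (V ℓ)}, Agree (ρ ℓ) g g' → g = g' :=
    fun h => eq_of_agree hX (hψ ℓ) (hD.characters ℓ) h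
  have hle : Γ ℓ ≤ G ℓ := by
    intro g hg
    obtain ⟨g', hg', h⟩ := h1 g hg
    rw [key h]
    exact hg'
  refine ⟨hle, ?_⟩
  have hcov : ⋃ s ∈ S.attach, (⟨s.1, hSG s.1 s.2⟩ : G ℓ) •
      (((Γ ℓ).subgroupOf (G ℓ) : Subgroup (G ℓ)) : Set (G ℓ)) = Set.univ := by
    rw [Set.eq_univ_iff_forall]
    intro g
    obtain ⟨s, hs, g', hg', h⟩ := h2 g.1 g.2
    rw [Set.mem_iUnion₂]
    refine ⟨⟨s, hs⟩, Finset.mem_attach _ _, ?_⟩
    rw [Set.mem_smul_set]
    refine ⟨⟨g', hle hg'⟩, ?_, ?_⟩
    · exact Subgroup.mem_subgroupOf.2 hg'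
    · exact Subtype.ext (key h).symm
  obtain ⟨s, -, h3, h4⟩ := Subgroup.exists_index_le_card_of_leftCoset_cover hcov
  refine ⟨h3.index_ne_zero, le_trans h4 ?_⟩
  rw [Finset.card_attach]
  exact hS

end Pool.Agent.Results.MP_2b5912_ag.ProductsOfPlaneCoverings
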